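import Pool.Agent.J4H64.MO.Def

set_option autoImplicit false

/-! Project MO (SHIFT): many instances over the same seeds. -/

namespace Pool.Agent.J4H21.MO

open Pool.Agent.J4H64.MC Pool.Agent.J4H64.MN Pool.Agent.J4H64.MO

/-- parities depend only on the values read -/
theorem par_congr {ρ ρ' : Type} {t K K' : ℕ} (R : ρ → Fin t → Fin K) (R' : ρ' → Fin t → Fin K') (w : Fin K → Bool)
    (w' : Fin K' → Bool) (r : ρ) (r' : ρ') (h : ∀ τ, w' (R' r' τ) = w (R r τ)) (j : ℕ) :
    par R' w' r' j = par R w r j := by
  induction j with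
  | zero => rfl
  | succ j ih =>
    unfold par
    split_ifs with hj
    · rw [ih, h]
    · exact ih

/-- the parity of copies of one bit -/
theorem par_const {ρ : Type} {t K : ℕ} (R : ρ → Fin t → Fin K) (w : Fin K → Bool) (r : ρ) (q : Fin K)
    (h : ∀ τ, R r τ = q) (j : ℕ) (hj : j ≤ t) : par R w r j = (w q && decide (Odd j)) := by
  induction j with
  | zero => simp [par]
  | succ j ih =>
    unfold par
    rw [dif_pos (show j < t by omega), ih (by omega), h]
    by_cases ho : Odd j
    · have : ¬ Odd (j + 1) := by
        rw [Nat.not_odd_iff_even]; exact ho.add_one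
      simp [ho, this]
    · have : Odd (j + 1) := by
        rw [Nat.not_odd_iff_even] at ho; exact ho.add_one
      simp [ho, this]

/-- (SHIFT) -/
theorem t_SHIFT : S_SHIFT := by
  intro k μ ν m t K R ht
  let R' : Fin m × Fin k × Fin (μ + ν) → Fin t → Fin (K + k * ν) := fun r τ =>
    Fin.addCases (motive := fun _ => Fin (K + k * ν))
      (fun b => Fin.castAdd (k * ν) (R (r.1, r.2.1, b) τ))
      (fun c => Fin.natAdd K (finProdFinEquiv (r.2.1, c))) r.2.2
  have hv1 : ∀ (w : Fin (K + k * ν) → Bool) (i : Fin m) (h : Fin k) (b : Fin μ),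
      value R' w i h (Fin.castAdd ν b) = value R (fun q => w (Fin.castAdd (k * ν) q)) i h b := by
    intro w i h b
    unfold value bit
    refine par_congr R R' _ _ _ _ (fun τ => ?_) t
    simp only [R', Fin.addCases_left]
  have hv2 : ∀ (w : Fin (K + k * ν) → Bool) (i : Fin m) (h : Fin k) (c : Fin ν),
      value R' w i h (Fin.natAdd μ c) = w (Fin.natAdd K (finProdFinEquiv (h, c))) := by
    intro w i h c
    unfold value bit
    rw [par_const R' w (i, h, Fin.natAdd μ c) (Fin.natAdd K (finProdFinEquiv (h, c)))
      (fun τ => by simp only [R', Fin.addCases_right]) t le_rfl]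
    simp [ht]
  refine ⟨R', fun y => {p | ((p.1, fun h b => p.2 h (Fin.castAdd ν b)) : Pnt k μ m) ∈
    y (fun h c => p.2 h (Fin.natAdd μ c))}, ?_, ?_⟩
  · intro p
    exact ⟨fun h c => p.2 h (Fin.natAdd μ c), (p.1, fun h b => p.2 h (Fin.castAdd ν b)), fun y => Iff.rfl⟩
  · intro y
    constructor
    · rintro ⟨w, hw⟩
      refine ⟨fun h c => w (Fin.natAdd K (finProdFinEquiv (h, c))), fun q => w (Fin.castAdd (k * ν) q), fun i => ?_⟩
      have h1 : ((i, fun h b => value R' w i h (Fin.castAdd ν b)) : Pnt k μ m) ∈
        y (fun h c => value R' w i h (Fin.natAdd μ c)) := hw i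
      have e1 : (fun h b => value R' w i h (Fin.castAdd ν b)) =
          value R (fun q => w (Fin.castAdd (k * ν) q)) i := by
        funext h b; exact hv1 w i h b
      have e2 : (fun (h : Fin k) (c : Fin ν) => value R' w i h (Fin.natAdd μ c)) =
          fun h c => w (Fin.natAdd K (finProdFinEquiv (h, c))) := by
        funext h c; exact hv2 w i h c
      rw [e1, e2] at h1
      exact h1
    · rintro ⟨j, w, hw⟩
      let w' : Fin (K + k * ν) → Bool := Fin.addCases (motive := fun _ => Bool) w
        (fun q => j (finProdFinEquiv.symm q).1 (finProdFinEquiv.symm q).2)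
      refine ⟨w', fun i => ?_⟩
      show ((i, fun h b => value R' w' i h (Fin.castAdd ν b)) : Pnt k μ m) ∈
        y (fun h c => value R' w' i h (Fin.natAdd μ c))
      have e1 : (fun h b => value R' w' i h (Fin.castAdd ν b)) = value R w i := by
        funext h b
        rw [hv1]
        have : (fun q => w' (Fin.castAdd (k * ν) q)) = w := by
          funext q; simp only [w', Fin.addCases_left]
        rw [this]
      have e2 : (fun (h : Fin k) (c : Fin ν) => value R' w' i h (Fin.natAdd μ c)) = j := by
        funext h c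
        rw [hv2]
        simp only [w', Fin.addCases_right, Equiv.symm_apply_apply]
      rw [e1, e2]
      exact hw i

end Pool.Agent.J4H21.MO
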